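import Pool.Agent.Helper29_AEU.Stmt

/-!
Squad AEU, Part IV (c), ANG: almost all families of angles are generic.
-/

namespace Pool.Agent.AEU.H75

open MeasureTheory Complex Filter Topology Pool.Agent.H62T

variable {n : ℕ}

theorem countable_sin_zero : {x : ℝ | Real.sin x = 0}.Countable := by
  have : {x : ℝ | Real.sin x = 0} ⊆ Set.range (fun m : ℤ => (m : ℝ) * Real.pi) := by
    intro x hx
    obtain ⟨m, hm⟩ := Real.sin_eq_zero_iff.1 hx
    exact ⟨m, hm⟩
  exact (Set.countable_range _).mono this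

theorem ae_trig {A B c : ℝ} (h : A ≠ 0 ∨ B ≠ 0) (hc : c ≠ 0) :
    ∀ᵐ t : ℝ, A * Real.cos (c * t) + B * Real.sin (c * t) ≠ 0 := by
  have hcount : {t : ℝ | A * Real.cos (c * t) + B * Real.sin (c * t) = 0}.Countable := by
    by_cases hne : ∃ t₀ : ℝ, A * Real.cos (c * t₀) + B * Real.sin (c * t₀) = 0
    · obtain ⟨t₀, h₀⟩ := hne
      have hsub : {t : ℝ | A * Real.cos (c * t) + B * Real.sin (c * t) = 0} ⊆
          (fun t => c * t - c * t₀) ⁻¹' {x : ℝ | Real.sin x = 0} := by
        intro t ht
        change Real.sin (c * t - c * t₀) = 0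
        rw [Real.sin_sub]
        have ht' : A * Real.cos (c * t) + B * Real.sin (c * t) = 0 := ht
        rcases h with h | h
        · have : A * (Real.sin (c * t) * Real.cos (c * t₀) -
              Real.cos (c * t) * Real.sin (c * t₀)) = 0 := by
            linear_combination Real.sin (c * t) * h₀ - Real.sin (c * t₀) * ht'
          exact (mul_eq_zero.1 this).resolve_left h
        · have : B * (Real.sin (c * t) * Real.cos (c * t₀) -
              Real.cos (c * t) * Real.sin (c * t₀)) = 0 := by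
            linear_combination Real.cos (c * t₀) * ht' - Real.cos (c * t) * h₀
          exact (mul_eq_zero.1 this).resolve_left h
      refine (Set.Countable.preimage_of_injOn countable_sin_zero ?_).mono hsub
      intro a _ b _ hab
      have : c * a = c * b := by
        have := hab
        simp only at this
        linarith
      exact mul_left_cancel₀ hc this
    · have : {t : ℝ | A * Real.cos (c * t) + B * Real.sin (c * t) = 0} = ∅ := by
        rw [Set.eq_empty_iff_forall_notMem]
        exact fun t ht => hne ⟨t, ht⟩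
      rw [this]
      exact Set.countable_empty
  have := hcount.measure_zero volume
  exact measure_eq_zero_iff_ae_notMem.1 this

/-- a measurable property which holds on almost every point of every line in the direction of a
coordinate holds almost everywhere -/
theorem ae_of_line (m : Fin n) (P : (Fin n → ℝ) → Prop) (hP : MeasurableSet {θ | P θ})
    (h : ∀ θ, ∀ᵐ t : ℝ, P (θ + t • Pi.single m 1)) : ∀ᵐ θ, P θ := by
  refine ae_mem_of_ae_add_linearMap_mem (LinearMap.toSpanSingleton ℝ (Fin n → ℝ)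
    (Pi.single m 1)) (volume : Measure ℝ) (volume : Measure (Fin n → ℝ)) hP (fun θ => ?_)
  filter_upwards [h θ] with t ht
  exact ht

theorem ae_sin (ℓ : (Fin n → ℝ) →ₗ[ℝ] ℝ) (m : Fin n) (hm : ℓ (Pi.single m 1) ≠ 0) (α : ℝ) :
    ∀ᵐ θ : Fin n → ℝ, Real.sin (ℓ θ + α) ≠ 0 := by
  have hc : Continuous ℓ := ℓ.continuous_of_finiteDimensional
  refine ae_of_line m _ ?_ (fun θ => ?_)
  · exact (isOpen_ne_fun (by fun_prop) continuous_const).measurableSet
  · have h1 := ae_trig (A := Real.sin (ℓ θ + α)) (B := Real.cos (ℓ θ + α)) (c :=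
      ℓ (Pi.single m 1)) (by
        by_contra hcon
        push Not at hcon
        have := Real.sin_sq_add_cos_sq (ℓ θ + α)
        rw [hcon.1, hcon.2] at this
        norm_num at this) hm
    filter_upwards [h1] with t ht
    have e : ℓ (θ + t • Pi.single m 1) + α = (ℓ θ + α) + ℓ (Pi.single m 1) * t := by
      rw [map_add, map_smul, smul_eq_mul]
      ring
    rw [e, Real.sin_add]
    intro h
    apply ht
    linarith

theorem ip_exp (a b : ℝ) : ip (Complex.exp (a * I)) (Complex.exp (b * I)) = Real.cos (a - b) := by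
  unfold ip
  rw [Complex.exp_ofReal_mul_I_re, Complex.exp_ofReal_mul_I_re, Complex.exp_ofReal_mul_I_im,
    Complex.exp_ofReal_mul_I_im, Real.cos_sub]

theorem dt_exp (a b : ℝ) : dt (Complex.exp (a * I)) (Complex.exp (b * I)) = Real.sin (b - a) := by
  unfold dt
  rw [Complex.exp_ofReal_mul_I_re, Complex.exp_ofReal_mul_I_re, Complex.exp_ofReal_mul_I_im,
    Complex.exp_ofReal_mul_I_im, Real.sin_sub]
  ring

/-- coordinates as linear functionals -/
abbrev pr (i : Fin n) : (Fin n → ℝ) →ₗ[ℝ] ℝ := LinearMap.proj i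

theorem ae_cos_sub (i j : Fin n) (h : i ≠ j) : ∀ᵐ θ : Fin n → ℝ, Real.cos (θ i - θ j) ≠ 0 := by
  have := ae_sin (pr i - pr j) i (by simp [h]) (Real.pi / 2)
  filter_upwards [this] with θ hθ
  rw [Real.sin_add_pi_div_two] at hθ
  exact hθ

theorem ae_sin_sub (i j : Fin n) (h : i ≠ j) : ∀ᵐ θ : Fin n → ℝ, Real.sin (θ i - θ j) ≠ 0 := by
  have := ae_sin (pr i - pr j) i (by simp [h]) 0
  filter_upwards [this] with θ hθ
  rw [add_zero] at hθ
  exact hθ

theorem lin_ne (i j k l : Fin n) (hij : i ≠ j) (hkl : k ≠ l) (h : ¬ (i = k ∧ j = l)) :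
    ∃ m, (pr i - pr j - (pr k - pr l) : (Fin n → ℝ) →ₗ[ℝ] ℝ) (Pi.single m 1) ≠ 0 := by
  by_cases hik : k = i
  · subst hik
    have hjl : j ≠ l := fun e => h ⟨rfl, e⟩
    refine ⟨j, ?_⟩
    simp [hjl.symm]
  · refine ⟨i, ?_⟩
    simp only [LinearMap.sub_apply, LinearMap.proj_apply, Pi.single_eq_same,
      Pi.single_eq_of_ne hij.symm, Pi.single_eq_of_ne hik, Pi.single_apply]
    split_ifs <;> norm_num

theorem ae_inj (i j k l : Fin n) (hij : i ≠ j) (hkl : k ≠ l) :
    ∀ᵐ θ : Fin n → ℝ, |Real.cos (θ i - θ j)| = |Real.cos (θ k - θ l)| →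
      (i = k ∧ j = l) ∨ (i = l ∧ j = k) := by
  by_cases h : (i = k ∧ j = l) ∨ (i = l ∧ j = k)
  · exact Filter.Eventually.of_forall fun θ _ => h
  · push Not at h
    obtain ⟨m, hm⟩ := lin_ne i j k l hij hkl (by tauto)
    obtain ⟨m', hm'⟩ := lin_ne i j l k hij hkl.symm (by tauto)
    filter_upwards [ae_sin _ m hm 0, ae_sin _ m' hm' 0] with θ h1 h2 habs
    exfalso
    simp only [LinearMap.sub_apply, LinearMap.proj_apply, add_zero] at h1 h2
    have h3 : Real.cos (θ i - θ j) ^ 2 = Real.cos (θ k - θ l) ^ 2 := (sq_eq_sq_iff_abs_eq_abs _ _).2 habs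
    have h4 : Real.sin (θ i - θ j - (θ k - θ l)) * Real.sin (θ i - θ j - (θ l - θ k)) = 0 := by
      have e : θ i - θ j - (θ l - θ k) = (θ i - θ j) + (θ k - θ l) := by ring
      rw [e, Real.sin_sub, Real.sin_add]
      have h5 := Real.sin_sq_add_cos_sq (θ i - θ j)
      have h6 := Real.sin_sq_add_cos_sq (θ k - θ l)
      linear_combination (Real.cos (θ k - θ l) ^ 2) * h5 - (Real.cos (θ i - θ j) ^ 2) * h6 - h3
    exact (mul_ne_zero h1 h2) h4

theorem ae_tri (i j k : Fin n) (hij : i ≠ j) (hik : i ≠ k) (hjk : j ≠ k) :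
    ∀ᵐ θ : Fin n → ℝ, |Real.sin (θ k - θ i)| ≠ |Real.sin (θ j - θ i)| * |Real.sin (θ k - θ j)| := by
  have h1 : ∀ᵐ θ : Fin n → ℝ, Real.sin (θ j - θ i) = 0 ∨
      |Real.sin (θ k - θ i)| ≠ |Real.sin (θ j - θ i)| * |Real.sin (θ k - θ j)| := by
    refine ae_of_line k _ ?_ (fun θ => ?_)
    · exact (isClosed_eq (by fun_prop) continuous_const).measurableSet.union
        (isOpen_ne_fun (by fun_prop) (by fun_prop)).measurableSet
    · simp only [Pi.add_apply, Pi.smul_apply, Pi.single_eq_same, Pi.single_eq_of_ne hik,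
        Pi.single_eq_of_ne hjk, smul_eq_mul, mul_zero, add_zero, mul_one]
      by_cases h0 : Real.sin (θ j - θ i) = 0
      · exact Filter.Eventually.of_forall fun t => Or.inl h0
      · set a := θ j - θ i
        set b := θ k - θ j
        have key : ∀ ε : ℝ, ∀ᵐ t : ℝ, Real.sin (a + b + t) - ε * (Real.sin a * Real.sin (b + t)) ≠ 0 := by
          intro ε
          have h2 := ae_trig (A := Real.sin (a + b) - ε * (Real.sin a * Real.sin b))
            (B := Real.cos (a + b) - ε * (Real.sin a * Real.cos b)) (c := 1) (by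
              by_contra hcon
              push Not at hcon
              apply h0
              obtain ⟨hA, hB⟩ := hcon
              rw [Real.sin_add] at hA
              rw [Real.cos_add] at hB
              have h5 := Real.sin_sq_add_cos_sq b
              linear_combination Real.cos b * hA - Real.sin b * hB - Real.sin a * h5) one_ne_zero
          filter_upwards [h2] with t ht
          rw [one_mul] at ht
          rw [Real.sin_add (a + b) t, Real.sin_add b t]
          intro h
          apply ht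
          linarith
        filter_upwards [key 1, key (-1)] with t h3 h4
        right
        have e1 : θ k + t - θ i = a + b + t := by simp only [a, b]; ring
        have e2 : θ k + t - θ j = b + t := by simp only [b]; ring
        rw [e1, e2, ← abs_mul]
        intro h
        rcases abs_eq_abs.1 h with h | h
        · exact h3 (by rw [h]; ring)
        · exact h4 (by rw [h]; ring)
  filter_upwards [h1, ae_sin_sub j i hij.symm] with θ h2 h3
  exact h2.resolve_left h3

theorem ae_four (i j k l : Fin n) (hij : i ≠ j) (hik : i ≠ k) (hil : i ≠ l) :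
    ∀ᵐ θ : Fin n → ℝ, Complex.exp (θ i * I) * Complex.exp (θ k * I) ≠
        Complex.exp (θ j * I) * Complex.exp (θ l * I) ∧
      Complex.exp (θ i * I) * Complex.exp (θ k * I) ≠
        -(Complex.exp (θ j * I) * Complex.exp (θ l * I)) := by
  have h := ae_sin (pr i + pr k - (pr j + pr l)) i (by
    simp [Pi.single_eq_of_ne hij.symm, Pi.single_eq_of_ne hik.symm,
      Pi.single_eq_of_ne hil.symm]) 0
  filter_upwards [h] with θ h1
  simp only [LinearMap.sub_apply, LinearMap.add_apply, LinearMap.proj_apply, add_zero] at h1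
  have e : ∀ a b : ℝ, Complex.exp (a * I) * Complex.exp (b * I) =
      Complex.exp (((a + b : ℝ) : ℂ) * I) := by
    intro a b
    rw [← Complex.exp_add]
    push_cast
    ring_nf
  rw [e, e]
  rw [Real.sin_sub] at h1
  constructor
  · intro h2
    have h3 := congrArg Complex.re h2
    have h4 := congrArg Complex.im h2
    rw [Complex.exp_ofReal_mul_I_re, Complex.exp_ofReal_mul_I_re] at h3
    rw [Complex.exp_ofReal_mul_I_im, Complex.exp_ofReal_mul_I_im] at h4
    apply h1
    rw [h3, h4]
    ring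
  · intro h2
    have h3 := congrArg Complex.re h2
    have h4 := congrArg Complex.im h2
    rw [Complex.neg_re, Complex.exp_ofReal_mul_I_re, Complex.exp_ofReal_mul_I_re] at h3
    rw [Complex.neg_im, Complex.exp_ofReal_mul_I_im, Complex.exp_ofReal_mul_I_im] at h4
    apply h1
    rw [h3, h4]
    ring

/-- ANG -/
theorem ang : H29.AngStatement := by
  intro n
  have h1 : ∀ᵐ θ : Fin n → ℝ, ∀ i j, i ≠ j → Real.cos (θ i - θ j) ≠ 0 :=
    ae_all_iff.2 fun i => ae_all_iff.2 fun j => ae_all_iff.2 fun h => ae_cos_sub i j h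
  have h2 : ∀ᵐ θ : Fin n → ℝ, ∀ i j, i ≠ j → Real.sin (θ i - θ j) ≠ 0 :=
    ae_all_iff.2 fun i => ae_all_iff.2 fun j => ae_all_iff.2 fun h => ae_sin_sub i j h
  have h3 : ∀ᵐ θ : Fin n → ℝ, ∀ i j k l, i ≠ j → k ≠ l →
      |Real.cos (θ i - θ j)| = |Real.cos (θ k - θ l)| → (i = k ∧ j = l) ∨ (i = l ∧ j = k) :=
    ae_all_iff.2 fun i => ae_all_iff.2 fun j => ae_all_iff.2 fun k => ae_all_iff.2 fun l =>
      ae_all_iff.2 fun h => ae_all_iff.2 fun h' => ae_inj i j k l h h'
  have h4 : ∀ᵐ θ : Fin n → ℝ, ∀ i j k, i ≠ j → i ≠ k → j ≠ k →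
      |Real.sin (θ k - θ i)| ≠ |Real.sin (θ j - θ i)| * |Real.sin (θ k - θ j)| :=
    ae_all_iff.2 fun i => ae_all_iff.2 fun j => ae_all_iff.2 fun k =>
      ae_all_iff.2 fun h => ae_all_iff.2 fun h' => ae_all_iff.2 fun h'' => ae_tri i j k h h' h''
  have h5 : ∀ᵐ θ : Fin n → ℝ, ∀ i j k l, i ≠ j → i ≠ k → i ≠ l →
      Complex.exp (θ i * I) * Complex.exp (θ k * I) ≠
        Complex.exp (θ j * I) * Complex.exp (θ l * I) ∧
      Complex.exp (θ i * I) * Complex.exp (θ k * I) ≠
        -(Complex.exp (θ j * I) * Complex.exp (θ l * I)) :=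
    ae_all_iff.2 fun i => ae_all_iff.2 fun j => ae_all_iff.2 fun k => ae_all_iff.2 fun l =>
      ae_all_iff.2 fun h => ae_all_iff.2 fun h' => ae_all_iff.2 fun h'' => ae_four i j k l h h' h''
  filter_upwards [h1, h2, h3, h4, h5] with θ g1 g2 g3 g4 g5
  refine ⟨fun i j h => ?_, fun i j h => ?_, fun i j k l h h' e => ?_, fun i j k h h' h'' => ?_,
    fun i j k l a b c _ _ _ => g5 i j k l a b c⟩
  · rw [ip_exp]
    exact g1 i j h
  · rw [dt_exp]
    exact g2 j i h.symm
  · rw [ip_exp, ip_exp] at e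
    exact g3 i j k l h h' e
  · rw [dt_exp, dt_exp, dt_exp]
    exact g4 i j k h h' h''

end Pool.Agent.AEU.H75
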